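import Pool.Agent.TH942.ES.Ext

/-!
# Growth laws, continuation, orders and zero-free sectors for a system of primes
-/

set_option autoImplicit false

open Filter Topology Set Complex
open Pool.Agent.TH942.ES
open Pool.Agent.TH942.SL (Sect exists_root mem_sector re_of_sector sect_real sect_re sect_open)

namespace Pool.Agent.TH270.SH

variable {X : Type} {d : ℕ} {N : X → ℕ} {α : X → Fin d → ℂ} {Ψ : ℂ → ℂ}

/-- the sectorial means are `m log log Y + O(1)` -/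
def Gr (N : X → ℕ) (α : X → Fin d → ℂ) (ρ ρ' m : ℝ) : Prop :=
  ∃ C : ℝ, 0 ≤ C ∧ ∀ᶠ Y : ℝ in atTop,
    |SrE N α ρ ρ' Y - m * Real.log (Real.log Y)| ≤ C

/-- slow growth of the sectorial means -/
def Slow (N : X → ℕ) (α : X → Fin d → ℂ) (ρ ρ' : ℝ) : Prop :=
  ∀ ε : ℝ, 0 < ε → ∃ C : ℝ, ∀ᶠ Y : ℝ in atTop,
    |SrE N α ρ ρ' Y| ≤ C * Real.exp (ε * Real.log Y ^ ρ)

/-- `G` is a zero-free continuation of the Euler product to `U` -/
def ZF (N : X → ℕ) (α : X → Fin d → ℂ) (U : Set ℂ) (G : ℂ → ℂ) : Prop :=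
  (∀ s : ℂ, s ∈ U ∨ 1 / 2 < s.re → DifferentiableAt ℂ G s ∧ G s ≠ 0) ∧
    ∀ s : ℂ, 1 / 2 < s.re → G s = LE N α s

/-- `|G(x)| ≍ x^m` -/
def Size (G : ℂ → ℂ) (m : ℝ) : Prop :=
  ∃ A B : ℝ, 0 < A ∧ 0 < B ∧ ∀ x : ℝ, 0 < x → x ≤ 1 →
    A * x ^ m ≤ ‖G x‖ ∧ ‖G x‖ ≤ B * x ^ m

theorem loglog_tendsto : Tendsto (fun Y : ℝ => Real.log (Real.log Y)) atTop atTop :=
  Real.tendsto_log_atTop.comp Real.tendsto_log_atTop

theorem Gr.slow {ρ ρ' m : ℝ} (hρ : 1 < ρ) (h : Gr N α ρ ρ' m) : Slow N α ρ ρ' := by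
  intro ε hε
  obtain ⟨C, hC, h1⟩ := h
  refine ⟨|m| / ε + C, ?_⟩
  filter_upwards [h1, Real.tendsto_log_atTop.eventually_ge_atTop 1] with Y h2 h3
  have hT : 0 < Real.log Y := by linarith
  have hy : 0 < Real.log Y ^ ρ := Real.rpow_pos_of_pos hT _
  have e1 : Real.log (Real.log Y) ≤ Real.log Y ^ ρ := by
    have e2 := Real.log_le_sub_one_of_pos hT
    have e3 : Real.log Y ≤ Real.log Y ^ ρ := by
      conv_lhs => rw [← Real.rpow_one (Real.log Y)]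
      exact Real.rpow_le_rpow_of_exponent_le h3 hρ.le
    linarith
  have e0 : 0 ≤ Real.log (Real.log Y) := Real.log_nonneg h3
  have e4 : ε * Real.log Y ^ ρ ≤ Real.exp (ε * Real.log Y ^ ρ) := by
    have := Real.add_one_le_exp (ε * Real.log Y ^ ρ)
    linarith
  have e5 : 1 ≤ Real.exp (ε * Real.log Y ^ ρ) := Real.one_le_exp (by positivity)
  have e8 : |m| * Real.log (Real.log Y) ≤ |m| / ε * Real.exp (ε * Real.log Y ^ ρ) := by
    calc |m| * Real.log (Real.log Y) ≤ |m| * Real.log Y ^ ρ := by gcongr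
      _ = |m| / ε * (ε * Real.log Y ^ ρ) := by field_simp
      _ ≤ _ := by gcongr
  have e9 : C ≤ C * Real.exp (ε * Real.log Y ^ ρ) := le_mul_of_one_le_right hC e5
  have e10 : |m * Real.log (Real.log Y)| = |m| * Real.log (Real.log Y) := by
    rw [abs_mul, abs_of_nonneg e0]
  have e11 := abs_sub_abs_le_abs_sub (SrE N α ρ ρ' Y) (m * Real.log (Real.log Y))
  rw [add_mul]
  rw [e10] at e11
  linarith

variable (E : Sys N α)
include E

/-- **Slow growth is equivalent to the zero-free continuation to the sector.** -/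
theorem slow_iff {ρ ρ' : ℝ} (hρ : 1 < ρ) (hρ' : ρ < ρ') :
    Slow N α ρ ρ' ↔ ∃ G : ℂ → ℂ, ZF N α (Sect ρ) G := by
  constructor
  · intro h
    obtain ⟨G, h1, h2, -⟩ := E.cont_of_small hρ hρ' h
    exact ⟨G, h1, h2⟩
  · rintro ⟨G, h1, h2⟩ ε hε
    exact E.small_of_cont hρ hρ' (fun s hs => (h1 s (Or.inl hs)).1)
      (fun s hs => (h1 s (Or.inl hs)).2) (σ := 1 / 2) (fun s _ hs => h2 s hs) hε

/-- the law gives the continuation and the size -/
theorem Gr.cont {ρ ρ' m : ℝ} (hρ : 1 < ρ) (hρ' : ρ < ρ') (h : Gr N α ρ ρ' m) :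
    ∃ G : ℂ → ℂ, ZF N α (Sect ρ) G ∧ Size G m := by
  obtain ⟨G, h1, h2, h3⟩ := E.cont_of_small hρ hρ' (h.slow hρ)
  obtain ⟨C, hC, h4⟩ := h
  exact ⟨G, ⟨h1, h2⟩, h3 m C h4⟩

omit E in
/-- continuations to all sectors can be glued -/
theorem glue_all (h : ∀ ρ : ℝ, 1 < ρ → ∃ G : ℂ → ℂ, ZF N α (Sect ρ) G) :
    ∃ G : ℂ → ℂ, ZF N α {s | 0 < s.re} G := by
  obtain ⟨G, h1, h2⟩ := Sys.glue (L := LE N α) (fun ρ hρ => by
    obtain ⟨G, h1, h2⟩ := h ρ hρ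
    exact ⟨G, fun s hs => h1 s (Or.inl hs), fun s _ hs => h2 s hs⟩)
  refine ⟨G, fun s hs => h1 s ?_, h2⟩
  rcases hs with hs | hs
  · exact hs
  · linarith

/-- **Slow growth of all means is equivalent to the zero-free continuation to the half plane.** -/
theorem slow_all_iff : (∀ ρ ρ' : ℝ, 1 < ρ → ρ < ρ' → Slow N α ρ ρ') ↔
    ∃ G : ℂ → ℂ, ZF N α {s | 0 < s.re} G := by
  constructor
  · intro h
    exact glue_all fun ρ hρ => (slow_iff E hρ (lt_add_one ρ)).1 (h ρ (ρ + 1) hρ (lt_add_one ρ))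
  · rintro ⟨G, h1, h2⟩ ρ ρ' hρ hρ'
    refine (slow_iff E hρ hρ').2 ⟨G, fun s hs => h1 s ?_, h2⟩
    rcases hs with hs | hs
    · exact Or.inl (sect_re hρ hs)
    · exact Or.inr hs

/-- all laws together give the continuation to the half plane and the size -/
theorem gr_all {m : ℝ} (h : ∀ ρ ρ' : ℝ, 1 < ρ → ρ < ρ' → Gr N α ρ ρ' m) :
    ∃ G : ℂ → ℂ, ZF N α {s | 0 < s.re} G ∧ Size G m := by
  obtain ⟨G, h1, h2⟩ := (slow_all_iff E).1 fun ρ ρ' hρ hρ' => (h ρ ρ' hρ hρ').slow hρ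
  obtain ⟨G₂, ⟨h3, h4⟩, A, B, hA, hB, h5⟩ := Gr.cont E (ρ := 2) (ρ' := 3) (by norm_num)
    (by norm_num) (h 2 3 (by norm_num) (by norm_num))
  have h6 : ∀ s ∈ Sect 2, G s = G₂ s := Sys.agree (by norm_num)
    (fun s hs => (h1 s (Or.inl (sect_re (by norm_num) hs))).1)
    (fun s hs => (h3 s (Or.inl hs)).1) (σ := 1 / 2) fun s _ hs => by rw [h2 s hs, h4 s hs]
  refine ⟨G, ⟨h1, h2⟩, A, B, hA, hB, fun x hx hx1 => ?_⟩
  rw [h6 _ (sect_real (by norm_num) hx)]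
  exact h5 x hx hx1

/-- the order at the vertex is finite -/
theorem exists_ord (H : Con N α Ψ) :
    ∃ m : ℕ, analyticOrderAt Ψ 0 = m := by
  have h1 : analyticOrderAt Ψ 0 ≠ ⊤ := by
    intro htop
    rw [analyticOrderAt_eq_top] at htop
    have ho : IsOpen {z : ℂ | 0 < z.re} := isOpen_lt continuous_const Complex.continuous_re
    have a1 : AnalyticOnNhd ℂ Ψ {z : ℂ | 0 < z.re} :=
      DifferentiableOn.analyticOnNhd (fun z hz => (H.Ψd z hz).differentiableWithinAt) ho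
    obtain ⟨ε, hε, hb⟩ := Metric.eventually_nhds_iff.1 htop
    set z₀ : ℂ := ((ε / 2 : ℝ) : ℂ) with hz₀
    have hz1 : 0 < z₀.re := by rw [hz₀, Complex.ofReal_re]; linarith
    have hd : dist z₀ 0 < ε := by
      rw [hz₀, Complex.dist_eq, sub_zero, Complex.norm_real, Real.norm_eq_abs,
        abs_of_pos (by linarith)]
      linarith
    have hnear : Ψ =ᶠ[𝓝 z₀] fun _ => 0 := by
      have hb2 : ∀ᶠ z in 𝓝 z₀, dist z 0 < ε := by
        have : Continuous fun z : ℂ => dist z 0 := by fun_prop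
        exact this.continuousAt.eventually (gt_mem_nhds hd)
      filter_upwards [hb2] with z hz
      exact hb hz
    have a3 := a1.eqOn_of_preconnected_of_eventuallyEq (analyticOnNhd_const (v := 0))
      (convex_halfSpace_re_gt 0).isPreconnected hz1 hnear
    have h2 : Ψ 1 = 0 := a3 (show 0 < ((1 : ℂ)).re by norm_num)
    have h3 := (H.prod 1 (by norm_num)).tprod_eq
    have h4 : LE N α 1 = 0 := by
      unfold Pool.Agent.TH942.ES.LE
      rw [h3, h2]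
    exact (E.LE_diff (s := 1) (by norm_num)).2 h4
  exact ⟨_, (ENat.natCast_toNat h1).symm⟩

omit E in
theorem ordZero (h0 : AnalyticAt ℂ Ψ 0) {m : ℕ} (hm : analyticOrderAt Ψ 0 = m) :
    Pool.Agent.W263.BSD.OrdZero Ψ m := by
  rw [h0.analyticOrderAt_eq_natCast] at hm
  obtain ⟨g, hg, hg1, he⟩ := hm
  refine ⟨g, hg, hg1, ?_⟩
  filter_upwards [he] with z hz
  rw [hz, sub_zero, smul_eq_mul]

/-- a zero-free sector gives the law with the order of vanishing -/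
theorem gr_of_sector (H : Con N α Ψ) (h0 : AnalyticAt ℂ Ψ 0) {ρ ρ' : ℝ} (hρ : 1 < ρ)
    (hρ' : ρ < ρ') {m : ℕ} (hm : analyticOrderAt Ψ 0 = m) (hz : ∀ s ∈ Sect ρ, Ψ s ≠ 0) :
    Gr N α ρ ρ' m :=
  E.Sr_up H hρ hρ' (ordZero h0 hm) fun s hs1 hs2 => hz s ⟨hs1, hs2⟩

omit E in
/-- the law implies the limit of the quotient -/
theorem Gr.lim {ρ ρ' m : ℝ} (h : Gr N α ρ ρ' m) :
    Tendsto (fun Y : ℝ => SrE N α ρ ρ' Y / Real.log (Real.log Y)) atTop (𝓝 m) := by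
  obtain ⟨C, hC, h⟩ := h
  have h4 : Tendsto (fun Y : ℝ => C / Real.log (Real.log Y)) atTop (𝓝 0) :=
    tendsto_const_nhds.div_atTop loglog_tendsto
  rw [tendsto_iff_norm_sub_tendsto_zero]
  refine squeeze_zero' (Eventually.of_forall fun Y => norm_nonneg _) ?_ h4
  filter_upwards [h, loglog_tendsto.eventually_ge_atTop 1] with Y h5 h6
  have h7 : 0 < Real.log (Real.log Y) := by linarith
  rw [Real.norm_eq_abs]
  have e1 : SrE N α ρ ρ' Y / Real.log (Real.log Y) - m =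
      (SrE N α ρ ρ' Y - m * Real.log (Real.log Y)) / Real.log (Real.log Y) := by
    field_simp
  rw [e1, abs_div, abs_of_pos h7]
  exact div_le_div_of_nonneg_right h5 h7.le

/-- the limit of the quotient gives the zero-free sector and the order -/
theorem sector_of_lim (H : Con N α Ψ) (h0 : AnalyticAt ℂ Ψ 0) {ρ ρ' : ℝ} (hρ : 1 < ρ)
    (hρ' : ρ < ρ') {r : ℕ}
    (h : Tendsto (fun Y : ℝ => SrE N α ρ ρ' Y / Real.log (Real.log Y)) atTop (𝓝 (r : ℝ))) :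
    analyticOrderAt Ψ 0 = r ∧ ∀ s ∈ Sect ρ, Ψ s ≠ 0 := by
  have hz : ∀ s ∈ Sect ρ, Ψ s ≠ 0 := by
    have h2 := E.sector_of_small H hρ hρ' (K := 1 + r) ?_
    · exact fun s hs => h2 s hs.1 hs.2
    · have h3 : ∀ᶠ Y : ℝ in atTop, |SrE N α ρ ρ' Y / Real.log (Real.log Y) - r| < 1 :=
        (Metric.tendsto_nhds.1 h) 1 one_pos
      filter_upwards [h3, loglog_tendsto.eventually_ge_atTop 1] with Y h4 h5
      have h6 : 0 < Real.log (Real.log Y) := by linarith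
      have e1 : SrE N α ρ ρ' Y / Real.log (Real.log Y) - r =
          (SrE N α ρ ρ' Y - r * Real.log (Real.log Y)) / Real.log (Real.log Y) := by
        field_simp
      rw [e1, abs_div, abs_of_pos h6, div_lt_one h6] at h4
      have h7 := abs_sub_abs_le_abs_sub (SrE N α ρ ρ' Y) (r * Real.log (Real.log Y))
      have h8 : |(r : ℝ) * Real.log (Real.log Y)| = r * Real.log (Real.log Y) :=
        abs_of_nonneg (by positivity)
      rw [h8] at h7
      linarith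
  obtain ⟨m, hm⟩ := exists_ord E H
  have h3 := (gr_of_sector E H h0 hρ hρ' hm hz).lim
  have h4 := tendsto_nhds_unique h3 h
  have h5 : m = r := by exact_mod_cast h4
  exact ⟨by rw [hm, h5], hz⟩

/-- **The three forms of the law.** -/
theorem law_tfae (H : Con N α Ψ) (h0 : AnalyticAt ℂ Ψ 0) {ρ ρ' : ℝ} (hρ : 1 < ρ)
    (hρ' : ρ < ρ') (r : ℕ) :
    List.TFAE [analyticOrderAt Ψ 0 = r ∧ ∀ s ∈ Sect ρ, Ψ s ≠ 0,
      Gr N α ρ ρ' r,
      Tendsto (fun Y : ℝ => SrE N α ρ ρ' Y / Real.log (Real.log Y)) atTop (𝓝 (r : ℝ))] := by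
  tfae_have 1 → 2 := fun h => gr_of_sector E H h0 hρ hρ' h.1 h.2
  tfae_have 2 → 3 := fun h => h.lim
  tfae_have 3 → 1 := fun h => sector_of_lim E H h0 hρ hρ' h
  tfae_finish

/-- **All laws together.** -/
theorem law_all (H : Con N α Ψ) (h0 : AnalyticAt ℂ Ψ 0) (r : ℕ) :
    (∀ ρ ρ' : ℝ, 1 < ρ → ρ < ρ' → Gr N α ρ ρ' r) ↔
      analyticOrderAt Ψ 0 = r ∧ ∀ s : ℂ, 0 < s.re → Ψ s ≠ 0 := by
  constructor
  · intro h
    have h1 : ∀ ρ : ℝ, 1 < ρ → analyticOrderAt Ψ 0 = r ∧ ∀ s ∈ Sect ρ, Ψ s ≠ 0 :=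
      fun ρ hρ => ((law_tfae E H h0 hρ (lt_add_one ρ) r).out 0 1).2 (h ρ (ρ + 1) hρ (lt_add_one ρ))
    refine ⟨(h1 2 (by norm_num)).1, fun s hs => ?_⟩
    obtain ⟨ρ, hρ, h2⟩ := mem_sector (s := 1 + s) (by
      rw [Complex.add_re, Complex.one_re]
      linarith)
    rw [add_sub_cancel_left] at h2
    refine (h1 ρ hρ).2 s ⟨fun h3 => ?_, h2⟩
    rw [h3, Complex.zero_re] at hs
    exact lt_irrefl _ hs
  · rintro ⟨h1, h2⟩ ρ ρ' hρ hρ'
    exact gr_of_sector E H h0 hρ hρ' h1 fun s hs => h2 s (sect_re hρ hs)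

end Pool.Agent.TH270.SH
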