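import Pool.Agent.TH270.SH.Loc
import Pool.Agent.TH270.SH.Law

/-!
# Euler products over the primes of a number field, given by real polynomials
-/

set_option autoImplicit false

open Filter Topology Set Complex NumberField IsDedekindDomain
open Pool.Agent.TH942.ES
open Pool.Agent.H921R2.TatePole (nm two_le_nm nm_summable)

namespace Pool.Agent.TH270.SH

variable {K : Type} [Field K] [NumberField K] {B : HeightOneSpectrum (𝓞 K) → Polynomial ℝ}
  {D : ℕ} {c : ℝ}

/-- real polynomials of bounded degree whose roots have absolute values `≥ q_v ^ (1/2 - c)` -/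
structure Eul (B : HeightOneSpectrum (𝓞 K) → Polynomial ℝ) (D : ℕ) (c : ℝ) : Prop where
  const : ∀ v, (B v).coeff 0 = 1
  deg : ∀ v, (B v).natDegree ≤ D
  root : ∀ v, ∀ ρ : ℂ, ((B v).map (algebraMap ℝ ℂ)).IsRoot ρ →
    (nm v : ℝ) ^ (1 / 2 - c) ≤ ‖ρ‖

/-- the normalized local roots -/
noncomputable def alB (B : HeightOneSpectrum (𝓞 K) → Polynomial ℝ) (D : ℕ) (c : ℝ)
    (v : HeightOneSpectrum (𝓞 K)) : Fin D → ℂ := al (B v) D ((nm v : ℝ) ^ (1 / 2 - c))

/-- the norms -/
noncomputable def nmK (v : HeightOneSpectrum (𝓞 K)) : ℕ := nm v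

theorem nm_pos (v : HeightOneSpectrum (𝓞 K)) : (0 : ℝ) < nm v := by
  have := two_le_nm v
  exact_mod_cast (by omega : 0 < nm v)

theorem r_mul (v : HeightOneSpectrum (𝓞 K)) (c : ℝ) :
    (nm v : ℝ) ^ (1 / 2 - c) * (√(nm v : ℝ))⁻¹ = (nm v : ℝ) ^ (-c) := by
  rw [Real.sqrt_eq_rpow, ← Real.rpow_neg (nm_pos v).le, ← Real.rpow_add (nm_pos v)]
  congr 1
  ring

theorem sqrt_inv (v : HeightOneSpectrum (𝓞 K)) : 0 ≤ (√(nm v : ℝ))⁻¹ ∧ (√(nm v : ℝ))⁻¹ < 1 := by
  have h2 : (2 : ℝ) ≤ nm v := by exact_mod_cast two_le_nm v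
  have h3 : 1 < √(nm v : ℝ) := by
    rw [Real.lt_sqrt (by norm_num)]
    linarith
  exact ⟨by positivity, inv_lt_one_of_one_lt₀ h3⟩

theorem Eul.local (h : Eul B D c) (v : HeightOneSpectrum (𝓞 K)) :
    0 < (B v).eval ((nm v : ℝ) ^ (-c)) ∧
      ∑ j, log (1 - zv nmK (alB B D c) v j) =
        ((Real.log ((B v).eval ((nm v : ℝ) ^ (-c))) : ℝ) : ℂ) := by
  obtain ⟨h1, h2⟩ := sqrt_inv v
  have h3 := sum_log (D := D) (h.const v) (h.deg v)
    (Real.rpow_pos_of_pos (nm_pos v) (1 / 2 - c)) (h.root v) h1 h2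
  rw [r_mul] at h3
  refine ⟨h3.1, ?_⟩
  rw [← h3.2]
  refine Finset.sum_congr rfl fun j _ => ?_
  unfold zv nmK alB
  rw [div_eq_mul_inv, Complex.ofReal_inv]

theorem Eul.sys (h : Eul B D c) : Sys (nmK (K := K)) (alB B D c) where
  cnt := by
    have h1 := (nm_summable (K := K) (x := 2) (by norm_num)).countable_support
    have h2 : Function.support (fun v : HeightOneSpectrum (𝓞 K) => (nm v : ℝ) ^ (-(2 : ℝ))) =
        Set.univ := by
      ext v
      simp only [Function.mem_support, Set.mem_univ, iff_true]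
      have := nm_pos v
      positivity
    rwa [h2, Set.countable_univ_iff] at h1
  two_le := fun v => two_le_nm v
  sum := fun r hr => nm_summable (K := K) hr
  log_sum := nf_log_sum K
  le := fun v j => al_norm (h.const v) (Real.rpow_pos_of_pos (nm_pos v) _) (h.root v) j
  real := fun v => by
    have h1 := (h.local v).2
    unfold zv at h1
    rw [h1, Complex.ofReal_im]

theorem Eul.cv_eq (h : Eul B D c) (v : HeightOneSpectrum (𝓞 K)) :
    cv nmK (alB B D c) v = Real.log ((B v).eval ((nm v : ℝ) ^ (-c))) := by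
  unfold cv
  rw [(h.local v).2, Complex.ofReal_re]

theorem Eul.factor (h : Eul B D c) (v : HeightOneSpectrum (𝓞 K)) (s : ℂ) :
    ∏ i, (1 - zv nmK (alB B D c) v i * xv nmK v s)⁻¹ =
      (((B v).map (algebraMap ℝ ℂ)).eval ((nm v : ℂ) ^ (-((c : ℂ) + s))))⁻¹ := by
  rw [Finset.prod_inv_distrib]
  congr 1
  have h1 := prod_al (r := (nm v : ℝ) ^ (1 / 2 - c)) (h.const v) (h.deg v)
    (((√(nm v : ℝ))⁻¹ : ℝ) * xv nmK v s)
  have h2 : (((nm v : ℝ) ^ (1 / 2 - c) : ℝ) : ℂ) * ((((√(nm v : ℝ))⁻¹ : ℝ) : ℂ) * xv nmK v s) =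
      (nm v : ℂ) ^ (-((c : ℂ) + s)) := by
    rw [← mul_assoc, ← Complex.ofReal_mul, r_mul]
    have h3 : ((nm v : ℕ) : ℂ) ≠ 0 := by
      have := nm_pos v
      exact_mod_cast this.ne'
    have h4 : (((nm v : ℝ) ^ (-c) : ℝ) : ℂ) = (nm v : ℂ) ^ (-(c : ℂ)) := by
      rw [Complex.ofReal_cpow (nm_pos v).le]
      push_cast
      rfl
    rw [h4, neg_add, Complex.cpow_add _ _ h3]
    congr 1
    unfold xv nmK
    rw [Complex.cpow_def_of_ne_zero h3, Complex.ofReal_log (nm_pos v).le, Complex.ofReal_natCast]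
    congr 1
    ring
  rw [h2] at h1
  rw [← h1]
  refine Finset.prod_congr rfl fun j _ => ?_
  unfold zv alB nmK
  rw [Complex.ofReal_inv, div_eq_mul_inv]
  ring

/-- the `L`-function -/
noncomputable def LB (B : HeightOneSpectrum (𝓞 K) → Polynomial ℝ) (s : ℂ) : ℂ :=
  ∏' v : HeightOneSpectrum (𝓞 K), (((B v).map (algebraMap ℝ ℂ)).eval ((nm v : ℂ) ^ (-s)))⁻¹

theorem Eul.LE_eq (h : Eul B D c) (s : ℂ) : LE nmK (alB B D c) s = LB B (c + s) := by
  unfold Pool.Agent.TH942.ES.LE LB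
  exact tprod_congr fun v => h.factor v s

/-- a continuation of the `L`-function gives a continuation of the system -/
theorem Eul.con (h : Eul B D c) {F : ℂ → ℂ} (hd : ∀ s : ℂ, c < s.re → DifferentiableAt ℂ F s)
    (he : ∀ s : ℂ, c + 1 / 2 < s.re → F s = LB B s) :
    Con nmK (alB B D c) (fun s => F (c + s)) where
  Ψd := fun s hs => by
    have h1 : DifferentiableAt ℂ F (c + s) := hd _ (by
      rw [Complex.add_re, Complex.ofReal_re]
      linarith)
    exact DifferentiableAt.comp (f := fun s : ℂ => (c : ℂ) + s) s h1 (by fun_prop)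
  prod := fun s hs => by
    have h1 := h.sys.hasProd hs
    have h2 : F (c + s) = exp (GG nmK (alB B D c) s - DE nmK (alB B D c) s) := by
      rw [he _ (by rw [Complex.add_re, Complex.ofReal_re]; linarith), ← h.LE_eq,
        h.sys.LE_eq hs]
    simp only [h2]
    exact h1

/-- translation of the order -/
theorem order_shift {F : ℂ → ℂ} {c : ℂ} (h0 : AnalyticAt ℂ F c) :
    AnalyticAt ℂ (fun s => F (c + s)) 0 ∧
      analyticOrderAt (fun s => F (c + s)) 0 = analyticOrderAt F c := by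
  have h1 : AnalyticAt ℂ (fun z : ℂ => c + z) 0 := by fun_prop
  have h2 : AnalyticAt ℂ F ((fun z : ℂ => c + z) 0) := by simpa using h0
  refine ⟨h2.fun_comp h1, ?_⟩
  have h3 := analyticOrderAt_comp_of_deriv_ne_zero (f := F) (g := fun z : ℂ => c + z) (z₀ := 0) h1
    (by
      rw [deriv_const_add]
      simp)
  simpa [Function.comp_def] using h3

end Pool.Agent.TH270.SH
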