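import Pool.Agent.TH652.COL.Local
import Pool.Agent.TH942.ES.NF

/-!
# Local factors given by real polynomials, with arbitrary vertex
-/

set_option autoImplicit false

open Filter Topology Set Complex
open Pool.Agent.TH942.ES

namespace Pool.Agent.TH270.SH

/-- products over the entries of a list, padded by zeros -/
theorem prod_getD {M : Type} [CommMonoid M] (g : ℂ → M) (hg : g 0 = 1) :
    ∀ (D : ℕ) (l : List ℂ), l.length ≤ D → ∏ j : Fin D, g (l.getD j 0) = (l.map g).prod := by
  intro D
  induction D with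
  | zero =>
    intro l hl
    have : l = [] := List.eq_nil_of_length_eq_zero (by omega)
    subst this
    simp
  | succ D ih =>
    intro l hl
    rw [Fin.prod_univ_succ]
    rcases l with _ | ⟨a, t⟩
    · simp [hg]
    · have h1 := ih t (by simpa using hl)
      simp only [Fin.val_zero, List.getD_cons_zero, Fin.val_succ, List.getD_cons_succ, List.map_cons,
        List.prod_cons, h1]

/-- sums over the entries of a list, padded by zeros -/
theorem sum_getD {M : Type} [AddCommMonoid M] (g : ℂ → M) (hg : g 0 = 0) :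
    ∀ (D : ℕ) (l : List ℂ), l.length ≤ D → ∑ j : Fin D, g (l.getD j 0) = (l.map g).sum := by
  intro D
  induction D with
  | zero =>
    intro l hl
    have : l = [] := List.eq_nil_of_length_eq_zero (by omega)
    subst this
    simp
  | succ D ih =>
    intro l hl
    rw [Fin.sum_univ_succ]
    rcases l with _ | ⟨a, t⟩
    · simp [hg]
    · have h1 := ih t (by simpa using hl)
      simp only [Fin.val_zero, List.getD_cons_zero, Fin.val_succ, List.getD_cons_succ, List.map_cons,
        List.sum_cons, h1]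

/-- the complex roots of a real polynomial, as a list -/
noncomputable def rts (B : Polynomial ℝ) : List ℂ := (B.map (algebraMap ℝ ℂ)).roots.toList

theorem rts_length (B : Polynomial ℝ) {D : ℕ} (hD : B.natDegree ≤ D) : (rts B).length ≤ D := by
  unfold rts
  rw [Multiset.length_toList]
  refine (Polynomial.card_roots' _).trans ?_
  rwa [Polynomial.natDegree_map]

/-- the normalized inverse roots, padded by zeros; `r = q ^ (1/2 - c)` for the vertex `c` -/
noncomputable def al (B : Polynomial ℝ) (D : ℕ) (r : ℝ) (j : Fin D) : ℂ :=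
  ((rts B).getD j 0)⁻¹ * r

variable {B : Polynomial ℝ} {D : ℕ} {r : ℝ}

theorem mem_rts {ρ : ℂ} (h0 : B.coeff 0 = 1) :
    ρ ∈ rts B ↔ (B.map (algebraMap ℝ ℂ)).IsRoot ρ := by
  have hp : B.map (algebraMap ℝ ℂ) ≠ 0 := by
    intro h
    have h1 : (B.map (algebraMap ℝ ℂ)).coeff 0 = 1 := by rw [Polynomial.coeff_map, h0]; simp
    rw [h] at h1
    simp at h1
  unfold rts
  rw [Multiset.mem_toList, Polynomial.mem_roots hp]

theorem al_norm (h0 : B.coeff 0 = 1) (hr : 0 < r)
    (hroot : ∀ ρ : ℂ, (B.map (algebraMap ℝ ℂ)).IsRoot ρ → r ≤ ‖ρ‖) (j : Fin D) :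
    ‖al B D r j‖ ≤ 1 := by
  unfold al
  rw [norm_mul, norm_inv, Complex.norm_real, Real.norm_eq_abs, abs_of_pos hr]
  by_cases h : (j : ℕ) < (rts B).length
  · have h1 : (rts B).getD j 0 ∈ rts B := by
      rw [List.getD_eq_getElem _ _ h]
      exact List.getElem_mem h
    have h2 := hroot _ ((mem_rts h0).1 h1)
    have h3 : 0 < ‖(rts B).getD j 0‖ := hr.trans_le h2
    rw [inv_mul_le_one₀ h3]
    exact h2
  · rw [List.getD_eq_default _ _ (by omega)]
    simp

theorem prod_al (h0 : B.coeff 0 = 1) (hD : B.natDegree ≤ D) (z : ℂ) :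
    ∏ j, (1 - al B D r j * z) = (B.map (algebraMap ℝ ℂ)).eval (r * z) := by
  have h1 := prod_getD (fun w : ℂ => 1 - w⁻¹ * r * z) (by simp) D (rts B) (rts_length B hD)
  simp only [al]
  rw [h1, TH652.COL.eval_eq_prod _ (by rw [Polynomial.coeff_map, h0]; simp)]
  unfold rts
  rw [← Multiset.prod_coe, ← Multiset.map_coe, Multiset.coe_toList]
  refine congrArg Multiset.prod (Multiset.map_congr rfl fun ρ _ => ?_)
  ring

/-- the logarithm of the local factor on the real axis -/
theorem sum_log (h0 : B.coeff 0 = 1) (hD : B.natDegree ≤ D) (hr : 0 < r)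
    (hroot : ∀ ρ : ℂ, (B.map (algebraMap ℝ ℂ)).IsRoot ρ → r ≤ ‖ρ‖) {x : ℝ} (hx0 : 0 ≤ x)
    (hx : x < 1) :
    0 < B.eval (r * x) ∧
      ∑ j, log (1 - al B D r j * x) = ((Real.log (B.eval (r * x)) : ℝ) : ℂ) := by
  set p := B.map (algebraMap ℝ ℂ) with hp
  have hn : ∀ j, ‖al B D r j * x‖ < 1 := fun j => by
    rw [norm_mul, Complex.norm_real, Real.norm_eq_abs, abs_of_nonneg hx0]
    have := al_norm (D := D) h0 hr hroot j
    have := norm_nonneg (al B D r j)
    nlinarith
  have hne : ∀ j, 1 - al B D r j * x ≠ 0 := fun j h => by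
    have h1 := hn j
    rw [sub_eq_zero] at h
    rw [← h, norm_one] at h1
    exact lt_irrefl _ h1
  -- the imaginary part vanishes
  set S : ℂ := ∑ j, log (1 - al B D r j * x) with hS
  have hS1 : S = (p.roots.map fun ρ => log (1 - ρ⁻¹ * r * x)).sum := by
    rw [hS]
    simp only [al]
    rw [sum_getD (fun w : ℂ => log (1 - w⁻¹ * r * x)) (by simp) D (rts B) (rts_length B hD)]
    unfold rts
    rw [← Multiset.sum_coe, ← Multiset.map_coe, Multiset.coe_toList]
  have hconj : (starRingEnd ℂ) S = S := by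
    conv_lhs => rw [hS1, map_multiset_sum, Multiset.map_map]
    rw [hS1]
    conv_rhs => rw [← TH652.COL.roots_conj, Multiset.map_map]
    refine congrArg Multiset.sum (Multiset.map_congr rfl fun ρ hρ => ?_)
    have h1 := hroot ρ (Polynomial.isRoot_of_mem_roots hρ)
    have h2 : 0 < ‖ρ‖ := hr.trans_le h1
    have h3 : ‖ρ⁻¹ * r * x‖ < 1 := by
      rw [norm_mul, norm_mul, norm_inv, Complex.norm_real, Complex.norm_real, Real.norm_eq_abs,
        Real.norm_eq_abs, abs_of_pos hr, abs_of_nonneg hx0]
      have h4 : ‖ρ‖⁻¹ * r ≤ 1 := by rw [inv_mul_le_one₀ h2]; exact h1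
      have h5 : 0 ≤ ‖ρ‖⁻¹ * r := by positivity
      nlinarith
    have h4 : 0 < (1 - ρ⁻¹ * r * x).re := by
      rw [Complex.sub_re, Complex.one_re]
      have := (Complex.re_le_norm _).trans_lt h3
      linarith
    simp only [Function.comp_apply]
    rw [← Complex.log_conj _ (fun h => by
      have := Complex.arg_eq_pi_iff.1 h
      linarith [this.1])]
    congr 1
    simp
  have him := Complex.conj_eq_iff_re.1 hconj
  have hexp : exp S = ((B.eval (r * x) : ℝ) : ℂ) := by
    rw [hS, Complex.exp_sum]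
    have h1 : ∀ j, exp (log (1 - al B D r j * x)) = 1 - al B D r j * x := fun j =>
      Complex.exp_log (hne j)
    simp only [h1]
    rw [prod_al h0 hD, Polynomial.eval_map, ← Complex.ofReal_mul]
    exact Polynomial.eval₂_at_apply (algebraMap ℝ ℂ) (r * x)
  have h5 : Real.exp S.re = B.eval (r * x) := by
    rw [← him, ← Complex.ofReal_exp] at hexp
    exact_mod_cast hexp
  have h6 : 0 < B.eval (r * x) := by rw [← h5]; exact Real.exp_pos _
  refine ⟨h6, ?_⟩
  rw [← h5, Real.log_exp, him]

end Pool.Agent.TH270.SH
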