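import Pool.Agent.TH270.SH.Star

/-!
# Zero-free continuations are positive on the real axis
-/

set_option autoImplicit false

open Filter Topology Set Complex NumberField IsDedekindDomain
open Pool.Agent.TH942.ES
open Pool.Agent.TH942.SL (Sect)
open Pool.Agent.H921R2.TatePole (nm two_le_nm nm_summable)

namespace Pool.Agent.TH270.SH

variable {K : Type} [Field K] [NumberField K] {B : HeightOneSpectrum (𝓞 K) → Polynomial ℝ}
  {D : ℕ} {c : ℝ}

theorem Eul.hasProd (h : Eul B D c) {s : ℂ} (hs : c + 1 / 2 < s.re) :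
    HasProd (fun v : HeightOneSpectrum (𝓞 K) =>
      (((B v).map (algebraMap ℝ ℂ)).eval ((nm v : ℂ) ^ (-s)))⁻¹) (LB B s) := by
  have h0 : (1 : ℝ) / 2 < (s - c).re := by
    rw [Complex.sub_re, Complex.ofReal_re]
    linarith
  have h1 : (c : ℂ) + (s - c) = s := by ring
  have h2 := h.sys.hasProd h0
  rw [← h.sys.LE_eq h0, h.LE_eq, h1] at h2
  refine h2.congr_fun fun v => ?_
  rw [h.factor, h1]

theorem eval_conj (P : Polynomial ℝ) (z : ℂ) :
    (P.map (algebraMap ℝ ℂ)).eval ((starRingEnd ℂ) z) =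
      (starRingEnd ℂ) ((P.map (algebraMap ℝ ℂ)).eval z) := by
  rw [Polynomial.eval_map, Polynomial.eval_map, Polynomial.hom_eval₂]
  congr 1
  ext x
  simp

theorem nm_conj (v : HeightOneSpectrum (𝓞 K)) (s : ℂ) :
    (nm v : ℂ) ^ (-((starRingEnd ℂ) s)) = (starRingEnd ℂ) ((nm v : ℂ) ^ (-s)) := by
  have h3 : ((nm v : ℕ) : ℂ) ≠ 0 := by
    have := nm_pos v
    exact_mod_cast this.ne'
  rw [Complex.cpow_def_of_ne_zero h3, Complex.cpow_def_of_ne_zero h3, ← Complex.exp_conj]
  congr 1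
  have h4 : Complex.log ((nm v : ℕ) : ℂ) = ((Real.log (nm v) : ℝ) : ℂ) := by
    rw [Complex.ofReal_log (nm_pos v).le, Complex.ofReal_natCast]
  rw [h4, map_mul, map_neg, Complex.conj_ofReal]

theorem Eul.LB_conj (h : Eul B D c) {s : ℂ} (hs : c + 1 / 2 < s.re) :
    LB B ((starRingEnd ℂ) s) = (starRingEnd ℂ) (LB B s) := by
  have h1 := h.hasProd hs
  have h2 : HasProd (fun v : HeightOneSpectrum (𝓞 K) => (starRingEnd ℂ)
      ((((B v).map (algebraMap ℝ ℂ)).eval ((nm v : ℂ) ^ (-s)))⁻¹))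
      ((starRingEnd ℂ) (LB B s)) := h1.map (starRingEnd ℂ) Complex.continuous_conj
  have h3 := h.hasProd (s := (starRingEnd ℂ) s) (by rwa [Complex.conj_re])
  refine h3.unique (h2.congr_fun fun v => ?_)
  rw [map_inv₀, nm_conj, eval_conj]

theorem Eul.LB_pos (h : Eul B D c) {x : ℝ} (hx : c + 1 / 2 < x) :
    0 < (LB B x).re ∧ (LB B x).im = 0 := by
  have h1 := h.hasProd (s := (x : ℂ)) (by rwa [Complex.ofReal_re])
  have h2 : (LB B x).im = 0 := by
    have := h.LB_conj (s := (x : ℂ)) (by rwa [Complex.ofReal_re])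
    rw [Complex.conj_ofReal] at this
    exact Complex.conj_eq_iff_im.1 this.symm
  have h3 : 0 ≤ (LB B x).re := by
    have hcl : IsClosed {z : ℂ | 0 ≤ z.re ∧ z.im = 0} :=
      (isClosed_le continuous_const Complex.continuous_re).inter
        (isClosed_eq Complex.continuous_im continuous_const)
    have h4 : ∀ S : Finset (HeightOneSpectrum (𝓞 K)), (∏ v ∈ S,
        (((B v).map (algebraMap ℝ ℂ)).eval ((nm v : ℂ) ^ (-(x : ℂ))))⁻¹) ∈
          {z : ℂ | 0 ≤ z.re ∧ z.im = 0} := by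
      intro S
      refine Finset.prod_induction _ (fun z : ℂ => z ∈ {z : ℂ | 0 ≤ z.re ∧ z.im = 0}) ?_ ?_ ?_
      · rintro a b ⟨ha1, ha2⟩ ⟨hb1, hb2⟩
        refine ⟨?_, ?_⟩
        · rw [Complex.mul_re, ha2, hb2]
          nlinarith
        · rw [Complex.mul_im, ha2, hb2]
          ring
      · exact ⟨by simp, by simp⟩
      · intro v _
        -- the factor at a real point
        have e1 := sum_log (D := D) (h.const v) (h.deg v)
          (Real.rpow_pos_of_pos (nm_pos v) (1 / 2 - c)) (h.root v)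
          (x := (nm v : ℝ) ^ (c - 1 / 2 - x)) (Real.rpow_nonneg (nm_pos v).le _)
          (Real.rpow_lt_one_of_one_lt_of_neg (by
            have : (2 : ℝ) ≤ nm v := by exact_mod_cast two_le_nm v
            linarith) (by linarith))
        have e2 : (nm v : ℝ) ^ (1 / 2 - c) * (nm v : ℝ) ^ (c - 1 / 2 - x) =
            (nm v : ℝ) ^ (-x) := by
          rw [← Real.rpow_add (nm_pos v)]
          congr 1
          ring
        rw [e2] at e1
        have e3 : ((B v).map (algebraMap ℝ ℂ)).eval ((nm v : ℂ) ^ (-(x : ℂ))) =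
            (((B v).eval ((nm v : ℝ) ^ (-x)) : ℝ) : ℂ) := by
          have e4 : (nm v : ℂ) ^ (-(x : ℂ)) = (((nm v : ℝ) ^ (-x) : ℝ) : ℂ) := by
            rw [Complex.ofReal_cpow (nm_pos v).le]
            push_cast
            rfl
          rw [e4, Polynomial.eval_map]
          exact Polynomial.eval₂_at_apply (algebraMap ℝ ℂ) ((nm v : ℝ) ^ (-x))
        rw [e3, ← Complex.ofReal_inv]
        exact ⟨by rw [Complex.ofReal_re]; exact (inv_pos.2 e1.1).le, Complex.ofReal_im _⟩
    have h5 : LB B x ∈ {z : ℂ | 0 ≤ z.re ∧ z.im = 0} :=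
      hcl.mem_of_tendsto h1 (Eventually.of_forall fun S => h4 S)
    exact h5.1
  refine ⟨lt_of_le_of_ne h3 fun h6 => ?_, h2⟩
  exact h.LB_ne (s := (x : ℂ)) (by rwa [Complex.ofReal_re])
    (Complex.ext h6.symm h2)

/-- the Schwarz reflection -/
theorem Eul.con_conj (h : Eul B D c) {F : ℂ → ℂ}
    (hd : ∀ s : ℂ, c < s.re → DifferentiableAt ℂ F s)
    (he : ∀ s : ℂ, c + 1 / 2 < s.re → F s = LB B s) {s : ℂ} (hs : c < s.re) :
    F ((starRingEnd ℂ) s) = (starRingEnd ℂ) (F s) := by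
  set G : ℂ → ℂ := fun s => (starRingEnd ℂ) (F ((starRingEnd ℂ) s)) with hG
  have hUo : IsOpen {s : ℂ | c < s.re} := isOpen_lt continuous_const Complex.continuous_re
  have hUc : IsPreconnected {s : ℂ | c < s.re} := (convex_halfSpace_re_gt c).isPreconnected
  have hFa : AnalyticOnNhd ℂ F {s : ℂ | c < s.re} :=
    DifferentiableOn.analyticOnNhd (fun s hs => (hd s hs).differentiableWithinAt) hUo
  have hGa : AnalyticOnNhd ℂ G {s : ℂ | c < s.re} := by
    refine DifferentiableOn.analyticOnNhd (fun s hs => ?_) hUo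
    have h1 : DifferentiableAt ℂ F ((starRingEnd ℂ) s) := hd _ (by rwa [Complex.conj_re])
    have h2 := h1.conj_conj
    rw [Complex.conj_conj] at h2
    exact h2.differentiableWithinAt
  have hx0 : ((c + 1 : ℝ) : ℂ) ∈ {s : ℂ | c < s.re} := by
    rw [Set.mem_ofPred_eq, Complex.ofReal_re]
    linarith
  have hev : F =ᶠ[𝓝 ((c + 1 : ℝ) : ℂ)] G := by
    have ho : IsOpen {s : ℂ | c + 1 / 2 < s.re} := isOpen_lt continuous_const Complex.continuous_re
    filter_upwards [ho.mem_nhds (show c + 1 / 2 < (((c + 1 : ℝ) : ℂ)).re by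
      rw [Complex.ofReal_re]; linarith)] with s hs
    have hs' : c + 1 / 2 < ((starRingEnd ℂ) s).re := by rwa [Complex.conj_re]
    rw [hG]
    simp only
    rw [he _ hs', he s hs, h.LB_conj hs, Complex.conj_conj]
  have hFG := hFa.eqOn_of_preconnected_of_eventuallyEq hGa hUc hx0 hev
  have h3 := hFG (show (starRingEnd ℂ) s ∈ {s : ℂ | c < s.re} by
    rw [Set.mem_ofPred_eq, Complex.conj_re]; exact hs)
  rw [h3, hG]
  simp only [Complex.conj_conj]

/-- a continuation without zeros on the real axis is positive there -/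
theorem Eul.con_pos (h : Eul B D c) {F : ℂ → ℂ}
    (hd : ∀ s : ℂ, c < s.re → DifferentiableAt ℂ F s)
    (he : ∀ s : ℂ, c + 1 / 2 < s.re → F s = LB B s)
    (h0 : ∀ x : ℝ, c < x → F x ≠ 0) {x : ℝ} (hx : c < x) :
    0 < (F x).re ∧ (F x).im = 0 := by
  have him : ∀ y : ℝ, c < y → (F y).im = 0 := fun y hy => by
    have := h.con_conj hd he (s := (y : ℂ)) (by rwa [Complex.ofReal_re])
    rw [Complex.conj_ofReal] at this
    exact Complex.conj_eq_iff_im.1 this.symm
  refine ⟨?_, him x hx⟩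
  by_contra hneg
  rw [not_lt] at hneg
  -- intermediate value theorem between `x` and a large real number
  set y : ℝ := max x (c + 1) with hy
  have hy1 : c + 1 / 2 < y := by
    have := le_max_right x (c + 1)
    linarith
  have hxy : x ≤ y := le_max_left _ _
  have hyp : 0 < (F y).re := by
    rw [he y (by rwa [Complex.ofReal_re])]
    exact (h.LB_pos hy1).1
  have hcont : ContinuousOn (fun t : ℝ => (F t).re) (Set.Icc x y) := by
    intro t ht
    have h1 : DifferentiableAt ℂ F (t : ℂ) := hd t (by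
      rw [Complex.ofReal_re]
      linarith [ht.1])
    have h2 : ContinuousAt (fun t : ℝ => F t) t :=
      ContinuousAt.comp (f := fun t : ℝ => (t : ℂ)) h1.continuousAt
        Complex.continuous_ofReal.continuousAt
    exact (Complex.continuous_re.continuousAt.comp h2).continuousWithinAt
  obtain ⟨t, ht, ht0⟩ := intermediate_value_Icc hxy hcont ⟨hneg, hyp.le⟩
  exact h0 t (by linarith [ht.1]) (Complex.ext ht0 (him t (by linarith [ht.1])))

/-- the leading coefficient of a continuation without zeros on the real axis is positive -/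
theorem Eul.lead_pos (h : Eul B D c) {F : ℂ → ℂ}
    (hd : ∀ s : ℂ, c < s.re → DifferentiableAt ℂ F s)
    (he : ∀ s : ℂ, c + 1 / 2 < s.re → F s = LB B s)
    (h0 : ∀ x : ℝ, c < x → F x ≠ 0) {r : ℕ} {A : ℂ} (hA : A ≠ 0)
    (hl : Tendsto (fun s => F s / (s - c) ^ r) (𝓝[≠] (c : ℂ)) (𝓝 A)) :
    0 < A.re ∧ A.im = 0 := by
  have h1 : Tendsto (fun x : ℝ => ((x : ℝ) : ℂ)) (𝓝[>] c) (𝓝[≠] (c : ℂ)) := by
    refine tendsto_nhdsWithin_of_tendsto_nhds_of_eventually_within _ ?_ ?_
    · exact (Complex.continuous_ofReal.tendsto c).mono_left nhdsWithin_le_nhds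
    · filter_upwards [self_mem_nhdsWithin] with x hx
      have : c < x := hx
      simp only [Set.mem_compl_iff, Set.mem_singleton_iff, Complex.ofReal_inj]
      exact this.ne'
  have h2 := hl.comp h1
  have hcl : IsClosed {z : ℂ | 0 ≤ z.re ∧ z.im = 0} :=
    (isClosed_le continuous_const Complex.continuous_re).inter
      (isClosed_eq Complex.continuous_im continuous_const)
  have h3 : A ∈ {z : ℂ | 0 ≤ z.re ∧ z.im = 0} := by
    refine hcl.mem_of_tendsto h2 ?_
    filter_upwards [self_mem_nhdsWithin] with x hx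
    have hx' : c < x := hx
    obtain ⟨e1, e2⟩ := h.con_pos hd he h0 hx'
    have e3 : F x = (((F x).re : ℝ) : ℂ) := Complex.ext (by simp) (by simp [e2])
    have e4 : (F ∘ fun x : ℝ => (x : ℂ)) x / ((x : ℂ) - c) ^ r =
        (((F x).re / (x - c) ^ r : ℝ) : ℂ) := by
      push_cast
      simp only [Function.comp_apply]
      rw [← e3]
    change F x / ((x : ℂ) - c) ^ r ∈ {z : ℂ | 0 ≤ z.re ∧ z.im = 0}
    have e5 : F x / ((x : ℂ) - c) ^ r = (((F x).re / (x - c) ^ r : ℝ) : ℂ) := e4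
    rw [e5]
    refine ⟨?_, Complex.ofReal_im _⟩
    rw [Complex.ofReal_re]
    have : 0 < x - c := by linarith
    positivity
  exact ⟨lt_of_le_of_ne h3.1 fun h4 => hA (Complex.ext h4.symm h3.2), h3.2⟩

/-- **the limit formula for a given continuation, all leading coefficients** -/
theorem Eul.star_all (h : Eul B D c) {F : ℂ → ℂ}
    (hd : ∀ s : ℂ, c < s.re → DifferentiableAt ℂ F s) (ha : AnalyticAt ℂ F c)
    (he : ∀ s : ℂ, c + 1 / 2 < s.re → F s = LB B s)
    {ρ₀ : ℝ} (hρ₀ : 1 ≤ ρ₀) (r : ℕ) {A : ℝ} (hA : A ≠ 0) :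
    (0 < A ∧ ∀ ρ ρ' : ℝ, ρ₀ < ρ → ρ < ρ' →
      Tendsto (fun X : ℝ => Real.exp (StE nmK (alB B D c) ρ ρ' X) * Real.log X ^ r) atTop
        (𝓝 (A * Real.exp (-(r * Real.eulerMascheroniConstant / ρ))))) ↔
    Tendsto (fun s => F s / (s - c) ^ r) (𝓝[≠] (c : ℂ)) (𝓝 (A : ℂ)) ∧
      ∀ s : ℂ, s - c ∈ Sect ρ₀ → F s ≠ 0 := by
  constructor
  · rintro ⟨h1, h2⟩
    exact (h.star_con hd ha he hρ₀ r h1).1 h2
  · rintro ⟨h1, h2⟩
    have h3 := h.lead_pos hd he (fun x hx => h2 x (by
      rw [← Complex.ofReal_sub]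
      exact sect_real' hρ₀ (by linarith))) (by exact_mod_cast hA) h1
    have h4 : 0 < A := by simpa using h3.1
    exact ⟨h4, (h.star_con hd ha he hρ₀ r h4).2 ⟨h1, h2⟩⟩

end Pool.Agent.TH270.SH
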