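import Pool.Agent.TH270.SH.NFS

/-!
# Vertices to the right of the centre: gluing with the region of absolute convergence
-/

set_option autoImplicit false

open Filter Topology Set Complex NumberField IsDedekindDomain
open Pool.Agent.TH942.ES

namespace Pool.Agent.TH270.SH

variable {K : Type} [Field K] [NumberField K] {B : HeightOneSpectrum (𝓞 K) → Polynomial ℝ}
  {D : ℕ} {c c₀ : ℝ}

theorem Eul.LB_diff (h : Eul B D c) {s : ℂ} (hs : c + 1 / 2 < s.re) :
    DifferentiableAt ℂ (LB B) s ∧ LB B s ≠ 0 := by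
  have h1 := h.sys.LE_diff (s := s - c) (by
    rw [Complex.sub_re, Complex.ofReal_re]
    linarith)
  have h2 : (fun z : ℂ => Pool.Agent.TH942.ES.LE nmK (alB B D c) (z - c)) = LB B := by
    funext z
    rw [h.LE_eq, add_sub_cancel]
  constructor
  · rw [← h2]
    exact DifferentiableAt.comp (f := fun z : ℂ => z - c) s h1.1 (by fun_prop)
  · have := h1.2
    rwa [h.LE_eq, add_sub_cancel] at this

/-- gluing a continuation with the `L`-function in the region of absolute convergence -/
theorem glue_L (h₀ : Eul B D c₀) (h : Eul B D c) {U : Set ℂ} (hU : IsOpen U)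
    (hUc : Convex ℝ U) (hx : ∀ x : ℝ, 0 < x → (x : ℂ) ∈ U) {G : ℂ → ℂ}
    (hG : ZF nmK (alB B D c) U G) :
    ∃ G' : ℂ → ℂ, (∀ s : ℂ, s - c ∈ U ∨ c₀ + 1 / 2 < s.re → DifferentiableAt ℂ G' s ∧ G' s ≠ 0) ∧
      (∀ s : ℂ, c₀ + 1 / 2 < s.re → G' s = LB B s) ∧ ∀ s : ℂ, s - c ∈ U → G' s = G (s - c) := by
  classical
  set V : Set ℂ := {s | c₀ + 1 / 2 < s.re} with hV
  have hVo : IsOpen V := isOpen_lt continuous_const Complex.continuous_re
  have hVc : Convex ℝ V := convex_halfSpace_re_gt _
  set U' : Set ℂ := {s | s - c ∈ U} with hU'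
  have hU'o : IsOpen U' := hU.preimage (by fun_prop)
  have hU'c : Convex ℝ U' := by
    intro x hx y hy a b ha hb hab
    have h1 := hUc hx hy ha hb hab
    rw [hU', Set.mem_ofPred_eq]
    have h2 : a • x + b • y - (c : ℂ) = a • (x - c) + b • (y - c) := by
      have h3 : (a : ℂ) + b = 1 := by exact_mod_cast hab
      simp only [Complex.real_smul]
      linear_combination (c : ℂ) * h3
    rw [h2]
    exact h1
  have hGd : ∀ s ∈ U', DifferentiableAt ℂ (fun z => G (z - c)) s ∧ G (s - c) ≠ 0 := fun s hs =>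
    ⟨DifferentiableAt.comp (f := fun z : ℂ => z - c) s (hG.1 _ (Or.inl hs)).1 (by fun_prop),
      (hG.1 _ (Or.inl hs)).2⟩
  -- agreement on the intersection
  have hagree : ∀ s ∈ U' ∩ V, G (s - c) = LB B s := by
    have a1 : AnalyticOnNhd ℂ (fun z => G (z - c)) (U' ∩ V) :=
      DifferentiableOn.analyticOnNhd (fun s hs => (hGd s hs.1).1.differentiableWithinAt)
        (hU'o.inter hVo)
    have a2 : AnalyticOnNhd ℂ (LB B) (U' ∩ V) :=
      DifferentiableOn.analyticOnNhd (fun s hs => (h₀.LB_diff hs.2).1.differentiableWithinAt)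
        (hU'o.inter hVo)
    set x₀ : ℝ := |c| + |c₀| + 1 with hx₀
    have hx1 : c < x₀ := by
      have := le_abs_self c
      have := abs_nonneg c₀
      linarith
    have hx2 : c₀ + 1 / 2 < x₀ := by
      have := le_abs_self c₀
      have := abs_nonneg c
      linarith
    have hx3 : c + 1 / 2 < x₀ := by
      have := le_abs_self c
      have := abs_nonneg c₀
      linarith
    have hxm : (x₀ : ℂ) ∈ U' ∩ V := by
      refine ⟨?_, ?_⟩
      · rw [hU', Set.mem_ofPred_eq, ← Complex.ofReal_sub]
        exact hx _ (by linarith)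
      · rw [hV, Set.mem_ofPred_eq, Complex.ofReal_re]
        exact hx2
    have ho : IsOpen {z : ℂ | c + 1 / 2 < z.re} := isOpen_lt continuous_const Complex.continuous_re
    refine a1.eqOn_of_preconnected_of_eventuallyEq a2 (hU'c.inter hVc).isPreconnected hxm ?_
    filter_upwards [ho.mem_nhds (show c + 1 / 2 < ((x₀ : ℂ)).re by
      rw [Complex.ofReal_re]; exact hx3)] with z hz
    rw [hG.2 (z - c) (by
      rw [Complex.sub_re, Complex.ofReal_re]
      have : c + 1 / 2 < z.re := hz
      linarith), h.LE_eq, add_sub_cancel]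
  refine ⟨fun s => if s ∈ V then LB B s else G (s - c), ?_, fun s hs => if_pos hs, ?_⟩
  · intro s hs
    by_cases hsV : s ∈ V
    · have h1 := h₀.LB_diff hsV
      refine ⟨h1.1.congr_of_eventuallyEq ?_, ?_⟩
      · filter_upwards [hVo.mem_nhds hsV] with z hz
        rw [if_pos hz]
      · simpa only [if_pos hsV] using h1.2
    · have hsU : s ∈ U' := hs.resolve_right hsV
      have h1 := hGd s hsU
      refine ⟨h1.1.congr_of_eventuallyEq ?_, ?_⟩
      · filter_upwards [hU'o.mem_nhds hsU] with z hz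
        by_cases hzV : z ∈ V
        · rw [if_pos hzV, hagree z ⟨hz, hzV⟩]
        · rw [if_neg hzV]
      · simpa only [if_neg hsV] using h1.2
  · intro s hs
    by_cases hsV : s ∈ V
    · simp only
      rw [if_pos hsV, hagree s ⟨hs, hsV⟩]
    · simp only
      rw [if_neg hsV]

end Pool.Agent.TH270.SH
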