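import Pool.Agent.TH270.SH.NFS
import Pool.Agent.TH942.ES.StarExt

/-!
# The limit formula for partial Euler products given by real polynomials
-/

set_option autoImplicit false

open Filter Topology Set Complex NumberField IsDedekindDomain
open Pool.Agent.TH942.ES
open Pool.Agent.TH942.SL (Sect wml)
open Pool.Agent.H921R2.TatePole (nm two_le_nm nm_summable)

namespace Pool.Agent.TH270.SH

variable {K : Type} [Field K] [NumberField K] {B : HeightOneSpectrum (𝓞 K) → Polynomial ℝ}
  {D : ℕ} {c : ℝ}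

/-- the power sums of the local roots at the vertex -/
theorem Eul.zpow_sum (h : Eul B D c) (v : HeightOneSpectrum (𝓞 K)) (k : ℕ) :
    ∑ j, zv nmK (alB B D c) v j ^ (k + 1) =
      ((TH652.COL.pw (B v) (k + 1) * ((nm v : ℝ) ^ (-c)) ^ (k + 1) : ℝ) : ℂ) := by
  have h1 := sum_getD (fun w : ℂ => (w⁻¹ * (((nm v : ℝ) ^ (1 / 2 - c) : ℝ) : ℂ) /
    ((√(nm v : ℝ) : ℝ) : ℂ)) ^ (k + 1)) (by simp) D (rts (B v)) (rts_length (B v) (h.deg v))
  have h2 : ∑ j, zv nmK (alB B D c) v j ^ (k + 1) = ∑ j : Fin D,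
      (((rts (B v)).getD j 0)⁻¹ * (((nm v : ℝ) ^ (1 / 2 - c) : ℝ) : ℂ) /
        ((√(nm v : ℝ) : ℝ) : ℂ)) ^ (k + 1) := rfl
  rw [h2, h1, Complex.ofReal_mul, TH652.COL.pw_eq]
  unfold rts
  rw [← Multiset.sum_coe, ← Multiset.map_coe, Multiset.coe_toList, ← Multiset.sum_map_mul_right]
  refine congrArg Multiset.sum (Multiset.map_congr rfl fun ρ _ => ?_)
  rw [← r_mul]
  push_cast
  rw [← mul_pow]
  congr 1
  ring

theorem Eul.zpow_real (h : Eul B D c) (v : HeightOneSpectrum (𝓞 K)) (k : ℕ) :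
    (∑ j, zv nmK (alB B D c) v j ^ k).im = 0 := by
  rcases k with _ | k
  · simp
  · rw [h.zpow_sum, Complex.ofReal_im]

theorem Eul.cP_eq (h : Eul B D c) (p : HeightOneSpectrum (𝓞 K) × ℕ) :
    cP nmK (alB B D c) p = TH652.COL.pw (B p.1) (p.2 + 1) /
      (((p.2 : ℝ) + 1) * ((nm p.1 : ℝ) ^ c) ^ (p.2 + 1)) := by
  unfold cP
  rw [h.zpow_sum, Complex.ofReal_re, Real.rpow_neg (nm_pos p.1).le, inv_pow]
  have := Real.rpow_pos_of_pos (nm_pos p.1) c
  field_simp

/-- the sector with vertex `c` -/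
theorem shift_nhds (ρ : ℝ) (G : ℂ → ℂ) (r : ℕ) (l : ℂ) (c : ℂ) :
    Tendsto (fun s => G s / (s - c) ^ r) (𝓝[{s : ℂ | s - c ∈ Sect ρ}] c) (𝓝 l) ↔
      Tendsto (fun s => G (c + s) / s ^ r) (𝓝[Sect ρ] 0) (𝓝 l) := by
  constructor
  · intro h
    have h1 : Tendsto (fun s : ℂ => c + s) (𝓝[Sect ρ] 0) (𝓝[{s : ℂ | s - c ∈ Sect ρ}] c) := by
      refine tendsto_nhdsWithin_of_tendsto_nhds_of_eventually_within _ ?_ ?_
      · have : Tendsto (fun s : ℂ => c + s) (𝓝 0) (𝓝 (c + 0)) :=
          (continuous_const.add continuous_id).tendsto 0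
        rw [add_zero] at this
        exact this.mono_left nhdsWithin_le_nhds
      · filter_upwards [self_mem_nhdsWithin] with s hs
        simp only [add_sub_cancel_left]
        exact hs
    refine (h.comp h1).congr fun s => ?_
    simp only [Function.comp_apply, add_sub_cancel_left]
  · intro h
    have h1 : Tendsto (fun s : ℂ => s - c) (𝓝[{s : ℂ | s - c ∈ Sect ρ}] c) (𝓝[Sect ρ] 0) := by
      refine tendsto_nhdsWithin_of_tendsto_nhds_of_eventually_within _ ?_ ?_
      · have : Tendsto (fun s : ℂ => s - c) (𝓝 c) (𝓝 (c - c)) :=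
          (continuous_id.sub continuous_const).tendsto c
        rw [sub_self] at this
        exact this.mono_left nhdsWithin_le_nhds
      · filter_upwards [self_mem_nhdsWithin] with s hs
        exact hs
    refine (h.comp h1).congr fun s => ?_
    simp only [Function.comp_apply, add_sub_cancel]

/-- **the limit formula for the partial products** -/
theorem Eul.star (h : Eul B D c) {ρ₀ : ℝ} (hρ₀ : 1 ≤ ρ₀) (r : ℕ) {A : ℝ} (hA : 0 < A) :
    (∀ ρ ρ' : ℝ, ρ₀ < ρ → ρ < ρ' →
      Tendsto (fun X : ℝ => Real.exp (StE nmK (alB B D c) ρ ρ' X) * Real.log X ^ r) atTop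
        (𝓝 (A * Real.exp (-(r * Real.eulerMascheroniConstant / ρ))))) ↔
    ∃ G : ℂ → ℂ, (∀ s : ℂ, s - c ∈ Sect ρ₀ ∨ c + 1 / 2 < s.re → DifferentiableAt ℂ G s ∧ G s ≠ 0) ∧
      (∀ s : ℂ, c + 1 / 2 < s.re → G s = LB B s) ∧
      ∀ ρ : ℝ, ρ₀ < ρ → Tendsto (fun s => G s / (s - c) ^ r) (𝓝[{s : ℂ | s - c ∈ Sect ρ}] c)
        (𝓝 (A : ℂ)) := by
  have key := h.sys.star_equiv h.zpow_real hρ₀ r hA
  have h1 : (∀ ρ ρ' : ℝ, ρ₀ < ρ → ρ < ρ' →
      Tendsto (fun X : ℝ => Real.exp (StE nmK (alB B D c) ρ ρ' X) * Real.log X ^ r) atTop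
        (𝓝 (A * Real.exp (-(r * Real.eulerMascheroniConstant / ρ))))) ↔
    (∀ ρ ρ' : ℝ, ρ₀ < ρ → ρ < ρ' →
      Tendsto (fun Y : ℝ => StE nmK (alB B D c) ρ ρ' Y + r * Real.log (Real.log Y)) atTop
        (𝓝 (Real.log A - r * Real.eulerMascheroniConstant / ρ))) := by
    refine forall_congr' fun ρ => forall_congr' fun ρ' => forall_congr' fun _ =>
      forall_congr' fun _ => ?_
    have e1 : ∀ᶠ X : ℝ in atTop, Real.exp (StE nmK (alB B D c) ρ ρ' X) * Real.log X ^ r =
        Real.exp (StE nmK (alB B D c) ρ ρ' X + r * Real.log (Real.log X)) := by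
      filter_upwards [eventually_gt_atTop 1] with X hX
      have hl := Real.log_pos hX
      rw [Real.exp_add, Real.exp_nat_mul, Real.exp_log hl]
    have e2 : A * Real.exp (-(r * Real.eulerMascheroniConstant / ρ)) =
        Real.exp (Real.log A - r * Real.eulerMascheroniConstant / ρ) := by
      rw [sub_eq_add_neg, Real.exp_add, Real.exp_log hA]
    rw [e2]
    constructor
    · intro h
      have h2 := (h.log (Real.exp_ne_zero _))
      rw [Real.log_exp] at h2
      refine h2.congr' ?_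
      filter_upwards [e1] with X hX
      rw [hX, Real.log_exp]
    · intro h
      refine ((Real.continuous_exp.tendsto _).comp h).congr' ?_
      filter_upwards [e1] with X hX
      rw [hX]
      rfl
  rw [h1, key]
  constructor
  · rintro ⟨G, hG1, hG2, hG3⟩
    refine ⟨fun s => G (s - c), fun s hs => ?_, fun s hs => ?_, fun ρ hρ => ?_⟩
    · obtain ⟨e1, e2⟩ := hG1 (s - c) (by
        rcases hs with h | h
        · exact Or.inl h
        · right
          rw [Complex.sub_re, Complex.ofReal_re]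
          linarith)
      exact ⟨DifferentiableAt.comp (f := fun s : ℂ => s - c) s e1 (by fun_prop), e2⟩
    · simp only
      rw [hG2 _ (by rw [Complex.sub_re, Complex.ofReal_re]; linarith), h.LE_eq, add_sub_cancel]
    · rw [shift_nhds]
      simpa only [add_sub_cancel_left] using hG3 ρ hρ
  · rintro ⟨G, hG1, hG2, hG3⟩
    refine ⟨fun s => G (c + s), fun s hs => ?_, fun s hs => ?_, fun ρ hρ => ?_⟩
    · obtain ⟨e1, e2⟩ := hG1 (c + s) (by
        rcases hs with h | h
        · left
          rw [add_sub_cancel_left]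
          exact h
        · right
          rw [Complex.add_re, Complex.ofReal_re]
          linarith)
      exact ⟨DifferentiableAt.comp (f := fun s : ℂ => (c : ℂ) + s) s e1 (by fun_prop), e2⟩
    · simp only
      rw [hG2 _ (by rw [Complex.add_re, Complex.ofReal_re]; linarith), h.LE_eq]
    · exact (shift_nhds ρ G r A c).1 (hG3 ρ hρ)

/-- the `L`-function has no zeros in the half plane of convergence -/
theorem Eul.LB_ne (h : Eul B D c) {s : ℂ} (hs : c + 1 / 2 < s.re) : LB B s ≠ 0 := by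
  have h1 : (c : ℂ) + (s - c) = s := by ring
  rw [← h1, ← h.LE_eq, h.sys.LE_eq (by rw [Complex.sub_re, Complex.ofReal_re]; linarith)]
  exact Complex.exp_ne_zero _

/-- **the limit formula, the order and the leading coefficient of a given continuation** -/
theorem Eul.star_con (h : Eul B D c) {F : ℂ → ℂ}
    (hd : ∀ s : ℂ, c < s.re → DifferentiableAt ℂ F s) (ha : AnalyticAt ℂ F c)
    (he : ∀ s : ℂ, c + 1 / 2 < s.re → F s = LB B s)
    {ρ₀ : ℝ} (hρ₀ : 1 ≤ ρ₀) (r : ℕ) {A : ℝ} (hA : 0 < A) :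
    (∀ ρ ρ' : ℝ, ρ₀ < ρ → ρ < ρ' →
      Tendsto (fun X : ℝ => Real.exp (StE nmK (alB B D c) ρ ρ' X) * Real.log X ^ r) atTop
        (𝓝 (A * Real.exp (-(r * Real.eulerMascheroniConstant / ρ))))) ↔
    Tendsto (fun s => F s / (s - c) ^ r) (𝓝[≠] (c : ℂ)) (𝓝 (A : ℂ)) ∧
      ∀ s : ℂ, s - c ∈ Sect ρ₀ → F s ≠ 0 := by
  rw [h.star hρ₀ r hA]
  have hAc : (A : ℂ) ≠ 0 := by exact_mod_cast hA.ne'
  have hre : ∀ s : ℂ, s - c ∈ Sect ρ₀ → c < s.re := fun s hs => by
    have := sect_re' hρ₀ hs
    rw [Complex.sub_re, Complex.ofReal_re] at this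
    linarith
  constructor
  · rintro ⟨G, hG1, hG2, hG3⟩
    -- `F = G` on the sector
    have hUo : IsOpen {s : ℂ | s - c ∈ Sect ρ₀} :=
      (sect_open' hρ₀).preimage (continuous_id.sub continuous_const)
    have hUc : IsPreconnected {s : ℂ | s - c ∈ Sect ρ₀} := by
      have : {s : ℂ | s - c ∈ Sect ρ₀} = (fun s => s + (c : ℂ)) '' Sect ρ₀ := by
        ext s
        simp only [Set.mem_ofPred_eq, Set.mem_image]
        constructor
        · intro hs
          exact ⟨s - c, hs, by ring⟩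
        · rintro ⟨t, ht, rfl⟩
          rwa [add_sub_cancel_right]
      rw [this]
      exact (sect_convex' hρ₀).isPreconnected.image _
        (continuous_id.add continuous_const).continuousOn
    have hFa : AnalyticOnNhd ℂ F {s : ℂ | s - c ∈ Sect ρ₀} :=
      DifferentiableOn.analyticOnNhd
        (fun s hs => (hd s (hre s hs)).differentiableWithinAt) hUo
    have hGa : AnalyticOnNhd ℂ G {s : ℂ | s - c ∈ Sect ρ₀} :=
      DifferentiableOn.analyticOnNhd
        (fun s hs => (hG1 s (Or.inl hs)).1.differentiableWithinAt) hUo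
    have hx0 : ((c + 1 : ℝ) : ℂ) ∈ {s : ℂ | s - c ∈ Sect ρ₀} := by
      rw [Set.mem_ofPred_eq]
      have : ((c + 1 : ℝ) : ℂ) - c = ((1 : ℝ) : ℂ) := by push_cast; ring
      rw [this]
      exact sect_real' hρ₀ one_pos
    have hev : F =ᶠ[𝓝 ((c + 1 : ℝ) : ℂ)] G := by
      have ho : IsOpen {s : ℂ | c + 1 / 2 < s.re} := isOpen_lt continuous_const Complex.continuous_re
      filter_upwards [ho.mem_nhds (show c + 1 / 2 < (((c + 1 : ℝ) : ℂ)).re by
        rw [Complex.ofReal_re]; linarith)] with s hs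
      rw [he s hs, hG2 s hs]
    have hFG : EqOn F G {s : ℂ | s - c ∈ Sect ρ₀} :=
      hFa.eqOn_of_preconnected_of_eventuallyEq hGa hUc hx0 hev
    refine ⟨?_, fun s hs => by rw [hFG hs]; exact (hG1 s (Or.inl hs)).2⟩
    -- the limit along the real axis
    have hreal : Tendsto (fun x : ℝ => ((c : ℂ) + x)) (𝓝[>] 0)
        (𝓝[{s : ℂ | s - c ∈ Sect (ρ₀ + 1)}] (c : ℂ)) := by
      refine tendsto_nhdsWithin_of_tendsto_nhds_of_eventually_within _ ?_ ?_
      · have : Tendsto (fun x : ℝ => ((c : ℂ) + x)) (𝓝 0) (𝓝 ((c : ℂ) + (0 : ℝ))) :=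
          (continuous_const.add Complex.continuous_ofReal).tendsto 0
        rw [Complex.ofReal_zero, add_zero] at this
        exact this.mono_left nhdsWithin_le_nhds
      · filter_upwards [self_mem_nhdsWithin] with x hx
        simp only [add_sub_cancel_left]
        exact sect_real' (by linarith) hx
    have hlim1 : Tendsto (fun x : ℝ => F ((c : ℂ) + x) / (x : ℂ) ^ r) (𝓝[>] 0) (𝓝 (A : ℂ)) := by
      refine ((hG3 (ρ₀ + 1) (by linarith)).comp hreal).congr' ?_
      filter_upwards [self_mem_nhdsWithin] with x hx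
      have hx' : ((c : ℂ) + x) - c ∈ Sect ρ₀ := by
        rw [add_sub_cancel_left]
        exact sect_real' hρ₀ hx
      simp only [Function.comp_apply, add_sub_cancel_left]
      rw [hFG hx']
    -- the order of `F`
    have hne_top : analyticOrderAt F c ≠ ⊤ := by
      intro htop
      rw [analyticOrderAt_eq_top] at htop
      have h1 : Tendsto (fun x : ℝ => F ((c : ℂ) + x) / (x : ℂ) ^ r) (𝓝[>] 0) (𝓝 0) := by
        refine tendsto_const_nhds.congr' ?_
        have h2 : Tendsto (fun x : ℝ => ((c : ℂ) + x)) (𝓝[>] 0) (𝓝 (c : ℂ)) :=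
          hreal.mono_right nhdsWithin_le_nhds
        filter_upwards [h2.eventually htop] with x hx
        rw [hx, zero_div]
      exact hAc (tendsto_nhds_unique hlim1 h1)
    obtain ⟨g, hg, hg0, hFg⟩ := ha.analyticOrderAt_ne_top.1 hne_top
    set m : ℕ := analyticOrderNatAt F c with hm
    -- `g(c) x^(m - r) → A`
    have h2 : Tendsto (fun x : ℝ => ((c : ℂ) + x)) (𝓝[>] 0) (𝓝 (c : ℂ)) :=
      hreal.mono_right nhdsWithin_le_nhds
    have h3 : Tendsto (fun x : ℝ => (x : ℂ) ^ m / (x : ℂ) ^ r) (𝓝[>] 0) (𝓝 (A / g c)) := by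
      have h4 : Tendsto (fun x : ℝ => g ((c : ℂ) + x)) (𝓝[>] 0) (𝓝 (g c)) :=
        hg.continuousAt.tendsto.comp h2
      refine (hlim1.div h4 hg0).congr' ?_
      have h5 : ∀ᶠ x : ℝ in 𝓝[>] 0, g ((c : ℂ) + x) ≠ 0 := h4.eventually_ne hg0
      filter_upwards [h2.eventually hFg, h5] with x hx hx2
      rw [Pi.div_apply, hx, add_sub_cancel_left, smul_eq_mul]
      field_simp
    have hmr : m = r := by
      have hx0 : Tendsto (fun x : ℝ => (x : ℂ)) (𝓝[>] 0) (𝓝 0) := by
        have : Tendsto (fun x : ℝ => (x : ℂ)) (𝓝 0) (𝓝 ((0 : ℝ) : ℂ)) :=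
          Complex.continuous_ofReal.tendsto 0
        rw [Complex.ofReal_zero] at this
        exact this.mono_left nhdsWithin_le_nhds
      rcases lt_trichotomy m r with hlt | heq | hgt
      · exfalso
        obtain ⟨k, hk⟩ := Nat.exists_eq_add_of_lt hlt
        have h6 := h3.mul (hx0.pow (k + 1))
        rw [zero_pow (by omega), mul_zero] at h6
        have h7 : Tendsto (fun _ : ℝ => (1 : ℂ)) (𝓝[>] (0 : ℝ)) (𝓝 0) := by
          refine h6.congr' ?_
          filter_upwards [self_mem_nhdsWithin] with x hx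
          have hxc : (x : ℂ) ≠ 0 := by
            have : (0 : ℝ) < x := hx
            exact_mod_cast this.ne'
          rw [hk]
          field_simp
          ring
        exact one_ne_zero (tendsto_nhds_unique tendsto_const_nhds h7)
      · exact heq
      · exfalso
        obtain ⟨k, hk⟩ := Nat.exists_eq_add_of_lt hgt
        have h6 : Tendsto (fun x : ℝ => (x : ℂ) ^ m / (x : ℂ) ^ r) (𝓝[>] 0) (𝓝 0) := by
          have h7 := hx0.pow (k + 1)
          rw [zero_pow (by omega)] at h7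
          refine h7.congr' ?_
          filter_upwards [self_mem_nhdsWithin] with x hx
          have hxc : (x : ℂ) ≠ 0 := by
            have : (0 : ℝ) < x := hx
            exact_mod_cast this.ne'
          rw [hk]
          field_simp
          ring
        have h7 := tendsto_nhds_unique h3 h6
        exact (div_ne_zero hAc hg0) h7
    have hgA : g c = A := by
      have h8 : Tendsto (fun x : ℝ => (x : ℂ) ^ m / (x : ℂ) ^ r) (𝓝[>] 0) (𝓝 1) := by
        refine tendsto_const_nhds.congr' ?_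
        filter_upwards [self_mem_nhdsWithin] with x hx
        have hxc : (x : ℂ) ≠ 0 := by
          have : (0 : ℝ) < x := hx
          exact_mod_cast this.ne'
        rw [hmr]
        field_simp
      have h9 := tendsto_nhds_unique h3 h8
      rw [div_eq_one_iff_eq hg0] at h9
      exact h9.symm
    rw [← hgA]
    refine (hg.continuousAt.tendsto.mono_left nhdsWithin_le_nhds).congr' ?_
    filter_upwards [nhdsWithin_le_nhds hFg, self_mem_nhdsWithin] with s hs hs2
    have hs3 : s - c ≠ 0 := sub_ne_zero.2 hs2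
    rw [hs, ← hmr, smul_eq_mul]
    field_simp
  · rintro ⟨h1, h2⟩
    refine ⟨F, fun s hs => ?_, he, fun ρ hρ => h1.mono_left (nhdsWithin_mono _ fun s hs => ?_)⟩
    · rcases hs with h3 | h3
      · exact ⟨hd s (hre s h3), h2 s h3⟩
      · refine ⟨hd s (by linarith), ?_⟩
        rw [he s h3]
        exact h.LB_ne h3
    · rw [Set.mem_compl_iff, Set.mem_singleton_iff]
      intro h3
      have h4 : s - c ∈ Sect ρ := hs
      rw [h3, sub_self] at h4
      exact h4.1 rfl

end Pool.Agent.TH270.SH
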